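import Pool.Agent.H15.LE.Final

set_option autoImplicit false

namespace Pool.Agent.Results.MP_032421_nt.LogEpsilon

/-- With `A_n`, `B_n` the real and imaginary part of `∏_{k ≤ n} (1 + i k)`: for every `ε > 0` the
number of `n ≤ N` with `A_n ∣ B_n` is `O((log N)^ε)`, and for some `r = r(ε)` the number of
`n ≤ N` with `n ^ r |A_n| ≤ |B_n|` or `n ^ r |B_n| ≤ |A_n|` is `O((log N)^ε)`. -/
theorem result (ε : ℝ) (hε : 0 < ε) :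
    (∃ C : ℝ, ∀ N : ℕ, 2 ≤ N →
      (((Finset.Icc 1 N).filter (fun n : ℕ =>
        (∏ k ∈ Finset.Icc 1 n, (⟨1, (k : ℤ)⟩ : GaussianInt)).re ∣
          (∏ k ∈ Finset.Icc 1 n, (⟨1, (k : ℤ)⟩ : GaussianInt)).im)).card : ℝ) ≤
        C * (Real.log N) ^ ε) ∧
    (∃ (r : ℕ) (C : ℝ), ∀ N : ℕ, 2 ≤ N →
      (((Finset.Icc 1 N).filter (fun n : ℕ =>
        (n : ℤ) ^ r * |(∏ k ∈ Finset.Icc 1 n, (⟨1, (k : ℤ)⟩ : GaussianInt)).re| ≤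
            |(∏ k ∈ Finset.Icc 1 n, (⟨1, (k : ℤ)⟩ : GaussianInt)).im| ∨
        (n : ℤ) ^ r * |(∏ k ∈ Finset.Icc 1 n, (⟨1, (k : ℤ)⟩ : GaussianInt)).im| ≤
            |(∏ k ∈ Finset.Icc 1 n, (⟨1, (k : ℤ)⟩ : GaussianInt)).re|)).card : ℝ) ≤
        C * (Real.log N) ^ ε) := by
  obtain ⟨C, -, h⟩ := Pool.Agent.H15.LE.count_int ε hε
  obtain ⟨r, C', -, h'⟩ := Pool.Agent.H15.LE.count_exc ε hε
  refine ⟨⟨C, h⟩, ⟨r, C', fun N hN => h' N hN _ ?_⟩⟩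
  intro n hn
  rw [Finset.mem_filter, Finset.mem_Icc] at hn
  exact ⟨⟨hn.1.1, hn.2⟩, hn.1.2⟩

end Pool.Agent.Results.MP_032421_nt.LogEpsilon
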